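import Pool.Agent.V11248.FM.TwoU

/-!
# Two-dimensional representations at the prime `2`, without conditions at `2`

Let `m ≥ 2`, let `A` be a Noetherian local ring with its adic topology in which `2` is a nonunit and
not a zero divisor, for example the ring of integers of a finite extension of `ℚ_2`, and let
`ρ : Gal(ℚbar/ℚ) → GL_2(A)` be continuous, such that `ρ g` is a scalar matrix modulo `2 ^ m` for all
`g`. There is no other condition, neither at `2` nor at the other primes, and `ρ` may be ramified at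
infinitely many primes. Then:

* the inertia groups at all odd primes `l` which are not congruent to `1` modulo `2 ^ (m + 1)`
  (modulo `4`, if `m = 2`) act by scalars: the projective representation is unramified at `l`;
* if the inertia groups at the remaining odd primes act by scalars, too, then `ρ` is abelian, and
  `ρ g` is a scalar matrix for all `g` which fix the roots of unity of `2`-power order.

So in the second case `ρ` is not absolutely irreducible, whatever its behaviour (and its Hodge-Tate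
weights) at `2`.
-/

set_option autoImplicit false

open NumberField IsDedekindDomain IsLocalRing

namespace Pool.Agent.Results.MP_b583a4_nt.EvenPrime

/-- the absolute Galois group of `ℚ`, with the Krull topology -/
abbrev AbsGal : Type := Gal(AlgebraicClosure ℚ/ℚ)

/-- the ring of all algebraic integers -/
abbrev ZBar : Type := 𝓞 (AlgebraicClosure ℚ)

/-- `τ` lies in the inertia group at the maximal ideal `P` of the ring of all algebraic integers -/
def Inertia (P : Ideal ZBar) (τ : AbsGal) : Prop := ∀ x : ZBar, τ • x - x ∈ P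

/-- `g` fixes all roots of unity of `2`-power order -/
def FixesRootsOfUnity (g : AbsGal) : Prop :=
  ∀ (k : ℕ) (z : AlgebraicClosure ℚ), z ^ 2 ^ k = 1 → g z = z

section
variable {A : Type} [CommRing A]

/-- `M` is a scalar matrix -/
def Scalar (M : GL (Fin 2) A) : Prop := ∃ a : A, (M : Matrix (Fin 2) (Fin 2) A) = a • 1

/-- `M` is congruent to a scalar matrix modulo `d` -/
def ScalarMod (d : A) (M : GL (Fin 2) A) : Prop :=
  ∃ a : A, ∀ i j, d ∣ ((M : Matrix (Fin 2) (Fin 2) A) - a • 1) i j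

/-- The inertia groups at the maximal ideals above the prime number `l` act by scalar matrices; in
other words, the projective representation attached to `ρ` is unramified at `l`. -/
def ScalarInertiaAt (ρ : AbsGal →* GL (Fin 2) A) (l : ℕ) : Prop :=
  ∀ P : Ideal ZBar, P.IsMaximal → (l : ZBar) ∈ P → ∀ τ : AbsGal, Inertia P τ → Scalar (ρ τ)

end

/-- `l` is congruent to `1` modulo `2 ^ (m + 1)`, or `m = 2` and `l` is congruent to `1`
modulo `4`. -/
def Deep (m l : ℕ) : Prop := 2 ^ (m + 1) ∣ l - 1 ∨ m = 2 ∧ 4 ∣ l - 1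

/-- The theorem. -/
theorem result (m : ℕ) (hm : 2 ≤ m)
    (A : Type) [CommRing A] [IsLocalRing A] [IsNoetherianRing A] [TopologicalSpace A]
    (hA : IsAdic (maximalIdeal A)) (h2A : (2 : A) ∈ maximalIdeal A)
    (hreg : ∀ a : A, 2 * a = 0 → a = 0)
    (ρ : AbsGal →* GL (Fin 2) A) (hρ : Continuous ρ)
    (hρ1 : ∀ g, ScalarMod ((2 : A) ^ m) (ρ g)) :
    (∀ l : ℕ, l.Prime → l ≠ 2 → ¬ Deep m l → ScalarInertiaAt ρ l) ∧
    ((∀ l : ℕ, l.Prime → Deep m l → ScalarInertiaAt ρ l) →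
      (∀ g g', ρ g * ρ g' = ρ g' * ρ g) ∧ ∀ g, FixesRootsOfUnity g → Scalar (ρ g)) := by
  classical
  have : Fact (Nat.Prime 2) := ⟨Nat.prime_two⟩
  have hpm : 2 < 2 ^ m := lt_of_lt_of_le (by norm_num : 2 < 2 ^ 2) (Nat.pow_le_pow_right
    (by norm_num) hm)
  have h2c : ((2 : ℕ) : A) = 2 := by norm_num
  have h2A' : ((2 : ℕ) : A) ∈ maximalIdeal A := by rwa [h2c]
  have hreg' : ∀ a : A, ((2 : ℕ) : A) * a = 0 → a = 0 := by rwa [h2c]
  set E : Set (HeightOneSpectrum (𝓞 ℚ)) := {V11248.FM.vp 2} with hE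
  have hEp : ∀ v ∈ E, ((2 : ℕ) : 𝓞 ℚ) ∈ v.asIdeal := by
    intro v hv
    rw [hE, Set.mem_singleton_iff] at hv
    rw [hv]
    exact V11248.FM.mem_vp Fact.out
  have hEp' : ∀ v : HeightOneSpectrum (𝓞 ℚ), ((2 : ℕ) : 𝓞 ℚ) ∈ v.asIdeal → v ∈ E := by
    intro v hv
    rw [hE, Set.mem_singleton_iff]
    refine HeightOneSpectrum.ext ?_
    rw [V11248.FM.vp_ideal Fact.out]
    refine ((W571.FM.pl_max Nat.prime_two).eq_of_le v.isPrime.ne_top ?_).symm
    unfold W571.FM.pl
    rw [Ideal.span_singleton_le_iff_mem]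
    exact hv
  set S : Set (HeightOneSpectrum (𝓞 ℚ)) :=
    {v | 3 ≤ m ∧ 2 ^ m ∣ V11248.FM.nm v - 1 ∧ ¬ 2 ^ (m + 1) ∣ V11248.FM.nm v - 1} with hS
  have hSm : ∀ v ∈ S, 3 ≤ m ∧ 2 ^ m ∣ V11248.FM.nm v - 1 ∧ ¬ 2 ^ (m + 1) ∣ V11248.FM.nm v - 1 :=
    fun v hv => hv
  have hone := V11248.FM.two_one E hEp
  have hcts : ∀ N : ℕ, ∀ᶠ g in nhds (1 : AbsGal), V11248.FM.MJ (maximalIdeal A ^ N)
      (((V11248.FM.ad.comp ρ) g : Matrix (Fin (2 * 2)) (Fin (2 * 2)) A) - 1) := by
    intro N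
    filter_upwards [V11248.FM.cts_memN hA hρ N] with g hg
    refine V11248.FM.ad_sub_one (a := 1) ?_
    rw [one_smul]
    exact hg
  have h0 : ∀ g i j, ((2 : ℕ) : A) ^ m ∣
      (((V11248.FM.ad.comp ρ) g : Matrix (Fin (2 * 2)) (Fin (2 * 2)) A) - 1) i j := by
    intro g i j
    obtain ⟨a, ha⟩ := hρ1 g
    rw [h2c]
    exact Ideal.mem_span_singleton.1 (V11248.FM.ad_sub_one (I := Ideal.span {(2 : A) ^ m})
      (fun i j => Ideal.mem_span_singleton.2 (ha i j)) i j)
  have hk : ∀ g, ∃ α : Matrix (Fin (2 * 2)) (Fin (2 * 2)) A,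
      ((V11248.FM.ad.comp ρ) g : Matrix (Fin (2 * 2)) (Fin (2 * 2)) A) =
        1 + (((2 : ℕ) : A) ^ m) • α := by
    intro g
    choose α hα using h0 g
    refine ⟨Matrix.of α, ?_⟩
    rw [← sub_eq_iff_eq_add']
    ext i j
    rw [hα, Matrix.smul_apply, Matrix.of_apply, smul_eq_mul]
  have hB : ∀ g, ∃ (a : A) (B : Matrix (Fin 2) (Fin 2) A),
      (ρ g : Matrix (Fin 2) (Fin 2) A) = a • 1 + (((2 : ℕ) : A) ^ m) • B := by
    intro g
    obtain ⟨a, ha⟩ := hρ1 g
    choose B hB using ha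
    refine ⟨a, Matrix.of B, ?_⟩
    rw [← sub_eq_iff_eq_add']
    ext i j
    rw [hB, Matrix.smul_apply, Matrix.of_apply, smul_eq_mul, h2c]
  have hres : ∀ g, ∃ M : ℕ, V11248.FM.MJ (maximalIdeal A)
      ((((V11248.FM.ad.comp ρ) g : Matrix (Fin (2 * 2)) (Fin (2 * 2)) A) - 1) ^ M) := by
    intro g
    refine ⟨1, fun i j => ?_⟩
    rw [pow_one]
    exact Ideal.mem_of_dvd _ (h0 g i j) (Ideal.pow_mem_of_mem _ h2A' m (by omega))
  obtain ⟨hc, hun⟩ := V11248.FM.unramU (p := 2) (K := ℚ) (n := 2 * 2) (ρ := V11248.FM.ad.comp ρ)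
    h2A' hreg' hpm S (fun v hv => (hSm v hv).2)
    (fun R _ _ _ _ π hπs hπ X P σ τ hXρ hXc hreal hP hσ hτ hnil hpv v hv =>
      V11248.FM.two_stepU (hSm v hv).1 S (fun v hv => (hSm v hv).2) X P σ τ (fun g => by
        obtain ⟨α, hα⟩ := hk g
        obtain ⟨a, B, hB⟩ := hB g
        obtain ⟨y, hy⟩ := V11248.FM.adl_of hreg' π ((hπ _).2 ⟨1, by rw [mul_one]⟩) (by omega) hB hα
        exact ⟨y, by rw [hXρ g α hα, hy]⟩) hXc hP hσ hτ hnil hpv v hv)
    hcts hk
  have hsmall : ∀ (l : ℕ) (P : Ideal ZBar), l.Prime → P.IsMaximal →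
      W571.FM.cm P = (V11248.FM.vp l).asIdeal → ((2 : ℕ) : 𝓞 ℚ) ∉ (V11248.FM.vp l).asIdeal →
      ¬ Deep m l → ∀ τ : AbsGal, Inertia P τ → V11248.FM.ad.comp ρ τ = 1 := by
    intro l P hl hP hPv h2v hD τ hτ
    refine hun P (V11248.FM.vp l) hP hPv h2v ?_ τ hτ
    by_cases h : 2 ^ m ∣ V11248.FM.nm (V11248.FM.vp l) - 1
    · left
      have h' := h
      rw [V11248.FM.nm_vp hl] at h'
      have h3 : 3 ≤ m := by
        by_contra h3
        have hm2 : m = 2 := by omega
        apply hD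
        refine Or.inr ⟨hm2, ?_⟩
        rw [hm2] at h'
        exact h'
      refine ⟨h3, h, fun h4 => hD (Or.inl ?_)⟩
      rwa [V11248.FM.nm_vp hl] at h4
    · exact Or.inr h
  constructor
  · intro l hl hl2 hD P hP hlP τ hτ
    have hPv : W571.FM.cm P = (V11248.FM.vp l).asIdeal := by
      rw [V11248.FM.vp_ideal hl]
      exact W571.FM.cm_eq hl hP hlP
    refine V11248.FM.ad_eq_one (hsmall l P hl hP hPv (fun h => hl2 ?_) hD τ hτ)
    rw [← hPv] at h
    exact W569.FM.char_unique hP hl Nat.prime_two hlP (W571.FM.natCast_mem_cm.1 h)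
  · intro hur
    have hall : ∀ P : Ideal ZBar, P.IsMaximal → (∀ v ∈ E, W571.FM.cm P ≠ v.asIdeal) →
        ∀ τ : AbsGal, W569.FM.InInertia P τ → V11248.FM.ad.comp ρ τ = 1 := by
      intro P hP hPE τ hτ
      obtain ⟨l, hl, hlP, hv⟩ := V11248.FM.exists_vp (v := V11248.FM.place hP) hP rfl
      have hPv : W571.FM.cm P = (V11248.FM.vp l).asIdeal := by
        rw [← hv]
        rfl
      by_cases hD : Deep m l
      · obtain ⟨a, ha⟩ := hur l hl hD P hP hlP τ hτ
        exact V11248.FM.ad_of_scalar ha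
      · exact hsmall l P hl hP hPv (fun h => hPE _ (hEp' _ h) hPv) hD τ hτ
    refine ⟨V11248.FM.comm_of_ad h2A' E hone hcts hres hc hall, fun g hg => ?_⟩
    exact V11248.FM.ad_eq_one (V11248.FM.cyc_of h2A' E hEp' hone hcts hres hc hall g hg)

end Pool.Agent.Results.MP_b583a4_nt.EvenPrime
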