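import Pool.Agent.V11248.FM.RatG
import Pool.Agent.V11248.FM.Ads
import Pool.Agent.V11248.FM.Twist

/-!
# Two-dimensional representations which are scalar modulo `p ^ m`, generic tame ramification

Let `p` be an odd prime, `m ≥ 2`, and let `S` be a finite set of primes `l` which are congruent to
`1` modulo `p ^ m`, but not modulo `p ^ (m + 1)`. Fix nontrivial homomorphisms
`χ j : (ℤ/j)ˣ → ℤ/p`, `j ∈ S`, let `λ l j = χ j (l)` be the linking numbers and
`u l = (l - 1) / p ^ m` modulo `p`. Suppose that for all subsets `J` of `S` with at least three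
elements there are no nonzero nilpotent two by two matrices `M l`, `l ∈ J`, over a field of
characteristic `p`, such that the commutator of `∑ j, λ l j • M j` and `M l` is `u l • M l`. This is
no condition if `S` has at most two elements. If `S = {a, b, c}` has three elements it is fulfilled
unless all three equations `λ a c * u b = - λ b c * u a`, `λ a b * u c = - λ c b * u a` and
`λ b a * u c = - λ c a * u b` hold.

Let `A` be a complete Noetherian local ring in which `p` is a nonunit and not a zero divisor, for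
example the ring of integers of a finite extension of `ℚ_p`, and let
`ρ : Gal(ℚbar/ℚ) → GL_2(A)` be continuous, such that `ρ g` is a scalar matrix modulo `p ^ m` for all
`g`, and such that the inertia groups at the primes `l ≡ 1` modulo `p ^ m` which are not in `S` act
by scalars. There is no condition at `p` and at the other primes. Then `ρ` is abelian, and `ρ g` is a
scalar matrix for all `g` which fix the roots of unity of `p`-power order. So `ρ` is not absolutely
irreducible, whatever its behaviour (and its Hodge-Tate weights) at `p`.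
-/

set_option autoImplicit false

open NumberField IsDedekindDomain IsLocalRing

namespace Pool.Agent.Results.MP_b583a4_nt.GenericRamification

/-- the absolute Galois group of `ℚ`, with the Krull topology -/
abbrev AbsGal : Type := Gal(AlgebraicClosure ℚ/ℚ)

/-- the ring of all algebraic integers -/
abbrev ZBar : Type := 𝓞 (AlgebraicClosure ℚ)

/-- `τ` lies in the inertia group at the maximal ideal `P` of the ring of all algebraic integers -/
def Inertia (P : Ideal ZBar) (τ : AbsGal) : Prop := ∀ x : ZBar, τ • x - x ∈ P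

/-- `g` fixes all roots of unity of `p`-power order -/
def FixesRootsOfUnity (p : ℕ) (g : AbsGal) : Prop :=
  ∀ (k : ℕ) (z : AlgebraicClosure ℚ), z ^ p ^ k = 1 → g z = z

section
variable {A : Type} [CommRing A]

/-- `M` is a scalar matrix -/
def Scalar (M : GL (Fin 2) A) : Prop := ∃ a : A, (M : Matrix (Fin 2) (Fin 2) A) = a • 1

/-- `M` is congruent to a scalar matrix modulo `d` -/
def ScalarMod (d : A) (M : GL (Fin 2) A) : Prop :=
  ∃ a : A, ∀ i j, d ∣ ((M : Matrix (Fin 2) (Fin 2) A) - a • 1) i j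

/-- The inertia groups at the maximal ideals above the prime number `l` act by scalar matrices; in
other words, the projective representation attached to `ρ` is unramified at `l`. -/
def ScalarInertiaAt (ρ : AbsGal →* GL (Fin 2) A) (l : ℕ) : Prop :=
  ∀ P : Ideal ZBar, P.IsMaximal → (l : ZBar) ∈ P → ∀ τ : AbsGal, Inertia P τ → Scalar (ρ τ)

end

/-- The linking number `λ l j` of the distinct primes `l` and `j`: the value of the homomorphism
`χ j : (ℤ/j)ˣ → ℤ/p` at the class of `l` (and `0` if `j` divides `l`). -/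
noncomputable def linking {p : ℕ} (χ : ∀ j : ℕ, (ZMod j)ˣ →* Multiplicative (ZMod p))
    (l j : ℕ) : ZMod p :=
  open Classical in if h : Nat.Coprime l j then
    Multiplicative.toAdd (χ j (ZMod.unitOfCoprime l h)) else 0

/-- The class `u l` of `(l - 1) / p ^ m` modulo `p`. -/
def level (p m l : ℕ) : ZMod p := (((l - 1) / p ^ m : ℕ) : ZMod p)

/-- Some `l` in `J` is a `p`-th power modulo all other elements of `J`, with at most one
exception `j`. -/
def Sparse {p : ℕ} (χ : ∀ j : ℕ, (ZMod j)ˣ →* Multiplicative (ZMod p)) (J : Finset ℕ) : Prop :=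
  ∃ l ∈ J, ∃ j ∈ J, ∀ i ∈ J, i ≠ l → i ≠ j → linking χ l i = 0

/-- `J` consists of three primes whose linking numbers do not satisfy all the three equations. -/
def Asymmetric {p : ℕ} (m : ℕ) (χ : ∀ j : ℕ, (ZMod j)ˣ →* Multiplicative (ZMod p))
    (J : Finset ℕ) : Prop :=
  ∃ a b c : ℕ, a ≠ b ∧ a ≠ c ∧ b ≠ c ∧ J = {a, b, c} ∧
    ¬ (linking χ a c * level p m b = - (linking χ b c * level p m a) ∧
      linking χ a b * level p m c = - (linking χ c b * level p m a) ∧
      linking χ b a * level p m c = - (linking χ c a * level p m b))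

/-- There are no nonzero nilpotent two by two matrices `M l`, `l ∈ J`, over a field of
characteristic `p` such that for all `l` in `J` the commutator of the sum of the `λ l j • M j`,
`j ∈ J`, `j ≠ l`, and `M l` is `u l • M l`. -/
def NoTuple {p : ℕ} (m : ℕ) (χ : ∀ j : ℕ, (ZMod j)ˣ →* Multiplicative (ZMod p))
    (J : Finset ℕ) : Prop :=
  ∀ (k : Type) [Field k] [Algebra (ZMod p) k] (M : ℕ → Matrix (Fin 2) (Fin 2) k),
    (∀ l ∈ J, M l ≠ 0 ∧ IsNilpotent (M l)) →
      ∃ l ∈ J, (∑ j ∈ J.erase l, linking χ l j • M j) * M l -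
        M l * (∑ j ∈ J.erase l, linking χ l j • M j) ≠ level p m l • M l

/-- The theorem. -/
theorem result (p : ℕ) [Fact p.Prime] (hp : p ≠ 2) (m : ℕ) (hm : 2 ≤ m) (S : Finset ℕ)
    (hS : ∀ l ∈ S, l.Prime ∧ p ^ m ∣ l - 1 ∧ ¬ p ^ (m + 1) ∣ l - 1)
    (χ : ∀ j : ℕ, (ZMod j)ˣ →* Multiplicative (ZMod p)) (hχ : ∀ l ∈ S, ∃ x, χ l x ≠ 1)
    (hJ : ∀ J ⊆ S, 3 ≤ J.card → Sparse χ J ∨ Asymmetric m χ J ∨ NoTuple m χ J)
    (A : Type) [CommRing A] [IsLocalRing A] [IsNoetherianRing A]
    [IsAdicComplete (maximalIdeal A) A] [TopologicalSpace A]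
    (hA : IsAdic (maximalIdeal A)) (hpA : (p : A) ∈ maximalIdeal A)
    (hreg : ∀ a : A, (p : A) * a = 0 → a = 0)
    (ρ : AbsGal →* GL (Fin 2) A) (hρ : Continuous ρ)
    (hρ1 : ∀ g, ScalarMod ((p : A) ^ m) (ρ g))
    (hur : ∀ l : ℕ, l.Prime → l ∉ S → p ^ m ∣ l - 1 → ScalarInertiaAt ρ l) :
    (∀ g g', ρ g * ρ g' = ρ g' * ρ g) ∧ ∀ g, FixesRootsOfUnity p g → Scalar (ρ g) := by
  classical
  have hp2 : 2 < p := by
    have := (Fact.out : p.Prime).two_le
    omega
  have hpm : 2 < p ^ m := lt_of_lt_of_le hp2 (by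
    calc p = p ^ 1 := (pow_one p).symm
      _ ≤ p ^ m := Nat.pow_le_pow_right (by omega) (by omega))
  have h2u : IsUnit (2 : A) := by
    by_contra hcon
    have h1 : (2 : A) ∈ maximalIdeal A := hcon
    obtain ⟨d, hd⟩ := (Fact.out : p.Prime).odd_of_ne_two hp
    have h3 : (p : A) = 2 * d + 1 := by exact_mod_cast congrArg (Nat.cast : ℕ → A) hd
    have h4 := (maximalIdeal A).sub_mem hpA ((maximalIdeal A).mul_mem_right (d : A) h1)
    rw [h3, add_sub_cancel_left] at h4
    exact h4 isUnit_one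
  have hI : Ideal.span {(p : A) ^ m} ≤ maximalIdeal A := by
    rw [Ideal.span_singleton_le_iff_mem]
    exact Ideal.pow_mem_of_mem _ hpA m (by omega)
  obtain ⟨y, ρ', hy, hρ'1, hρ's, hρ'c⟩ := V11248.FM.exists_twist h2u hI ρ (fun g => by
    obtain ⟨a, ha⟩ := hρ1 g
    exact ⟨a, fun i j => Ideal.mem_span_singleton.2 (ha i j)⟩)
  -- no tuples
  have hno : ∀ (k : Type) [Field k] [Algebra (ZMod p) k] (J : Finset ℕ), J ⊆ S → J.Nonempty →
      ∀ M : ℕ → Matrix (Fin 2) (Fin 2) k,
        ¬ V11248.FM.Tup p k 2 J (V11248.FM.lk χ) (V11248.FM.lev p m) M := by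
    intro k _ _ J hJS hJne M hT
    have hu : ∀ l ∈ J, V11248.FM.lev p m l ≠ 0 := by
      intro l hl
      rw [V11248.FM.lev, Ne, ZMod.natCast_eq_zero_iff]
      intro h
      apply (hS l (hJS hl)).2.2
      rw [pow_succ, ← Nat.mul_div_cancel' (hS l (hJS hl)).2.1]
      exact Nat.mul_dvd_mul_left _ h
    by_cases h3 : 3 ≤ J.card
    · rcases hJ J hJS h3 with h | ⟨a, b, c, hab, hac, hbc, rfl, h⟩ | h
      · exact V11248.FM.no_tup_sparse hT hu h
      · exact V11248.FM.no_tup_three hab hac hbc hT hu h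
      · obtain ⟨l, hl, hne⟩ := h k M fun l hl => ⟨hT.ne l hl, hT.nil l hl⟩
        exact hne (hT.rel l hl)
    · refine V11248.FM.no_tup_sparse hT hu ?_
      obtain ⟨l, hl⟩ := hJne
      by_cases h4 : ∃ j ∈ J, j ≠ l
      · obtain ⟨j, hj, hjl⟩ := h4
        refine ⟨l, hl, j, hj, fun i hi hil hij => absurd ?_ h3⟩
        have h5 : ({l, j, i} : Finset ℕ) ⊆ J := by
          intro x hx
          rw [Finset.mem_insert, Finset.mem_insert, Finset.mem_singleton] at hx
          rcases hx with rfl | rfl | rfl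
          · exact hl
          · exact hj
          · exact hi
        have h6 : ({l, j, i} : Finset ℕ).card = 3 :=
          Finset.card_eq_three.2 ⟨l, j, i, Ne.symm hjl, Ne.symm hil, Ne.symm hij, rfl⟩
        rw [← h6]
        exact Finset.card_le_card h5
      · push Not at h4
        exact ⟨l, hl, l, hl, fun i hi hil _ => absurd (h4 i hi) hil⟩
  set E : Set (HeightOneSpectrum (𝓞 ℚ)) := {V11248.FM.vp p} with hE
  have hEp : ∀ v ∈ E, (p : 𝓞 ℚ) ∈ v.asIdeal := by
    intro v hv
    rw [hE, Set.mem_singleton_iff] at hv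
    rw [hv]
    exact V11248.FM.mem_vp Fact.out
  have hEp' : ∀ v : HeightOneSpectrum (𝓞 ℚ), (p : 𝓞 ℚ) ∈ v.asIdeal → v ∈ E := by
    intro v hv
    rw [hE, Set.mem_singleton_iff]
    refine HeightOneSpectrum.ext ?_
    rw [V11248.FM.vp_ideal Fact.out]
    refine ((W571.FM.pl_max (Fact.out : p.Prime)).eq_of_le v.isPrime.ne_top ?_).symm
    unfold W571.FM.pl
    rw [Ideal.span_singleton_le_iff_mem]
    exact hv
  have hcts : ∀ N : ℕ, ∀ᶠ g in nhds (1 : AbsGal), V11248.FM.MJ (maximalIdeal A ^ N)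
      ((ρ' g : Matrix (Fin 2) (Fin 2) A) - 1) := by
    intro N
    rcases Nat.eq_zero_or_pos N with rfl | hN
    · refine Filter.Eventually.of_forall fun g i j => ?_
      rw [pow_zero, Ideal.one_eq_top]
      exact Submodule.mem_top
    · filter_upwards [V11248.FM.cts_memN hA hρ N] with g hg
      exact hρ'c g _ (Ideal.pow_le_self (by omega)) hg
  have hk : ∀ g, ∃ α : Matrix (Fin 2) (Fin 2) A,
      (ρ' g : Matrix (Fin 2) (Fin 2) A) = 1 + ((p : A) ^ m) • α := by
    intro g
    have h2 : ∀ i j, ∃ a, ((ρ' g : Matrix (Fin 2) (Fin 2) A) - 1) i j = (p : A) ^ m * a :=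
      fun i j => Ideal.mem_span_singleton.1 (hρ'1 g i j)
    choose α hα using h2
    refine ⟨Matrix.of α, ?_⟩
    rw [← sub_eq_iff_eq_add']
    ext i j
    rw [hα, Matrix.smul_apply, Matrix.of_apply, smul_eq_mul]
  obtain ⟨hc, hun⟩ := V11248.FM.unramG (K := ℚ) (ρ := ρ') hpA hreg hpm (S.image V11248.FM.vp)
    (fun v hv => by
      obtain ⟨l, hl, rfl⟩ := Finset.mem_image.1 hv
      rw [V11248.FM.nm_vp (hS l hl).1]
      exact (hS l hl).2) E
    (fun R _ _ _ _ X P σ τ J hJS hXc hin hP hσ hτ hnil hne hrel => by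
      obtain ⟨h1, h2⟩ := V11248.FM.ratG hp hm S hS χ hχ hno R X P σ τ J (fun v hv => by
        obtain ⟨l, hl, h⟩ := Finset.mem_image.1 (hJS hv)
        exact ⟨l, hl, h.symm⟩) hXc hin hP hσ hτ hnil hne hrel
      refine ⟨h1, fun v hv => ?_⟩
      obtain ⟨l, hl, rfl⟩ := Finset.mem_image.1 hv
      exact h2 l hl)
    hcts hk (by
      intro P v hP hPv hvE h τ hτ
      obtain ⟨l, hl, hlP, rfl⟩ := V11248.FM.exists_vp hP hPv
      rcases h with h | ⟨hvS, h⟩
      · exact absurd (hEp' _ h) hvE
      · rw [V11248.FM.nm_vp hl] at h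
        obtain ⟨a, ha⟩ := hur l hl (fun h => hvS (Finset.mem_image_of_mem _ h)) h P hP hlP τ hτ
        exact hρ's τ a ha)
  have hres : ∀ g, ∃ M : ℕ, V11248.FM.MJ (maximalIdeal A)
      (((ρ' g : Matrix (Fin 2) (Fin 2) A) - 1) ^ M) := by
    intro g
    refine ⟨1, fun i j => ?_⟩
    rw [pow_one]
    exact hI (hρ'1 g i j)
  have hone := V11248.FM.one_ext (p := p) hp E hEp
  have hcomm : ∀ g g' : AbsGal, ρ' g * ρ' g' = ρ' g' * ρ' g :=
    V11248.FM.comm_of hpA E hone hcts hres (fun _ => hc) hun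
  constructor
  · intro g g'
    have h1 : (ρ' g : Matrix (Fin 2) (Fin 2) A) * (ρ' g' : Matrix (Fin 2) (Fin 2) A) =
        (ρ' g' : Matrix (Fin 2) (Fin 2) A) * (ρ' g : Matrix (Fin 2) (Fin 2) A) := by
      rw [← Units.val_mul, ← Units.val_mul, hcomm g g']
    apply Units.ext
    rw [Units.val_mul, Units.val_mul, hy g, hy g', smul_mul_smul_comm, smul_mul_smul_comm, h1,
      mul_comm (y g : A)]
  · intro g hg
    have h1 : ρ' g = 1 := V11248.FM.cyc_of hpA E hEp' hone hcts hres hc hun g hg
    exact ⟨y g, by rw [hy g, h1, Units.val_one]⟩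

end Pool.Agent.Results.MP_b583a4_nt.GenericRamification
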