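import Pool.Agent.V11302.FM.BMain
import Pool.Agent.V11302.FM.Dich

/-!
# Two-dimensional representations which look modular at a sparse set of primes

Let `f` be any function. There is a sequence `T` of prime numbers, growing faster than prescribed by `f`,
such that for every prime number `p`, every finite extension `E` of `ℚ_p`, every irreducible representation
`V : G_ℚ → GL_2(E)` and every finite family of semisimple representations `W_c : G_ℚ → GL_2(E)` (for example
the representations of finitely many eigenforms), all continuous and unramified outside a finite set of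
primes: if for every Frobenius element `σ` above almost every `T i` the matrices `V(σ)` and `W_c(σ)` have, for
some index `c` (which may depend on `σ`), the same eigenvalues up to roots of unity, then for one index `c`

* `V` is isomorphic to the twist of `W_c` by a character of finite order, or
* `V` is abelian on an open subgroup and a quotient of `W_c ⊗ π` for a representation `π` of a finite quotient
  of `G_ℚ`.

Nothing is assumed at the place `p` (nor on the reduction of `V`). The set `T` is very thin: there is a totally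
real field `L` of infinite degree, Galois and unramified at all finite places over a real quadratic field, in
which all the primes `T i` split completely.
-/

set_option autoImplicit false

namespace Pool.Agent.Results.MP_b583a4_nt.ModularAtSparsePrimes

open NumberField IntermediateField Module Kronecker

attribute [local instance 10] DivisionRing.toRatAlgebra

/-- the absolute Galois group of `ℚ` -/
abbrev GQ : Type := Gal(AlgebraicClosure ℚ/ℚ)

/-- the ring of all algebraic integers -/
abbrev ZBar : Type := 𝓞 (AlgebraicClosure ℚ)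

/-- `τ` lies in the inertia group at the maximal ideal `P` of the ring of all algebraic integers -/
def Inertia (P : Ideal ZBar) (τ : GQ) : Prop := ∀ x : ZBar, τ • x - x ∈ P

/-- `σ` is a (geometric) Frobenius element at the maximal ideal `P` above the prime number `q`: it induces
the inverse of `x ↦ x ^ q` on the residue field -/
def Frobenius (q : ℕ) (P : Ideal ZBar) (σ : GQ) : Prop := ∀ x : ZBar, x - (σ • x) ^ q ∈ P

/-- `L` is a totally real Galois extension of infinite degree of the real quadratic field `k`, unramified at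
all finite places, and a union of finite extensions of `ℚ` whose degrees are powers of two -/
structure UnramifiedTower (k L : IntermediateField ℚ (AlgebraicClosure ℚ)) : Prop where
  quadratic : finrank ℚ k = 2 ∧ ∃ s ∈ k,
    s ^ 2 = ((17 * 41 * 73 * 89 * 97 * 113 * 137 * 193 * 233 * 241 : ℕ) : AlgebraicClosure ℚ)
  le : k ≤ L
  infinite : ¬ FiniteDimensional ℚ L
  galois : ∀ σ : GQ, (∀ x ∈ k, σ x = x) → ∀ y ∈ L, σ y ∈ L
  unramified : ∀ q : ℕ, q.Prime → ∀ P : Ideal ZBar, P.IsMaximal → (q : ZBar) ∈ P → ∀ τ : GQ,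
    (∀ x ∈ k, τ x = x) → Inertia P τ → ∀ y ∈ L, τ y = y
  real : ∀ (φ : L →+* ℂ) (y : L), (φ y).im = 0
  two : ∀ y ∈ L, ∃ m : ℕ, finrank ℚ ℚ⟮y⟯ = 2 ^ m

/-- the prime number `q` is unramified and splits completely in `L`: all inertia elements and all Frobenius
elements above `q` fix `L` -/
def SplitsCompletely (q : ℕ) (L : IntermediateField ℚ (AlgebraicClosure ℚ)) : Prop :=
  ∀ P : Ideal ZBar, P.IsMaximal → (q : ZBar) ∈ P → ∀ σ : GQ, Inertia P σ ∨ Frobenius q P σ →
    ∀ y ∈ L, σ y = y

section rep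

variable {p : ℕ} [Fact p.Prime] {E : IntermediateField ℚ_[p] (PadicAlgCl p)} {n : ℕ}

/-- `V` is continuous and unramified outside a finite set of primes -/
def AlmostUnramified (V : GQ →* GL (Fin n) E) : Prop :=
  Continuous V ∧
  ∃ S : Finset ℕ, ∀ q : ℕ, q.Prime → q ∉ S → ∀ P : Ideal ZBar, P.IsMaximal → (q : ZBar) ∈ P →
    ∀ τ : GQ, Inertia P τ → V τ = 1

/-- the subspace `X` is stable under `V` -/
def IsStable (V : GQ →* GL (Fin n) E) (X : Submodule E (Fin n → E)) : Prop :=
  ∀ g, ∀ w ∈ X, (V g : Matrix (Fin n) (Fin n) E).mulVec w ∈ X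

/-- every stable subspace is zero or everything -/
def Irreducible (V : GQ →* GL (Fin n) E) : Prop :=
  ∀ X : Submodule E (Fin n → E), IsStable V X → X = ⊥ ∨ X = ⊤

/-- every stable subspace has a stable complement -/
def Semisimple (V : GQ →* GL (Fin n) E) : Prop :=
  ∀ X : Submodule E (Fin n → E), IsStable V X → ∃ X', IsStable V X' ∧ IsCompl X X'

/-- for all Frobenius elements `σ` above almost all `T i` there is an index `c` such that `V(σ)` and
`W_c(σ)` have the same eigenvalues (with multiplicities) up to roots of unity: some powers with the same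
exponent `a ≥ 1` have the same characteristic polynomial -/
def AgreeAtAlmostAll (T : ℕ → ℕ) (V : GQ →* GL (Fin n) E) {r : ℕ} (W : Fin r → GQ →* GL (Fin n) E) :
    Prop :=
  ∃ i₀ : ℕ, ∀ i ≥ i₀, ∀ P : Ideal ZBar, P.IsMaximal → (T i : ZBar) ∈ P →
    ∀ σ : GQ, Frobenius (T i) P σ → ∃ c, ∃ a : ℕ, a ≠ 0 ∧
      ((V σ : Matrix (Fin n) (Fin n) E) ^ a).charpoly = ((W c σ : Matrix (Fin n) (Fin n) E) ^ a).charpoly

/-- `V` is a quotient of `W ⊗ π` for a representation `π` of a finite quotient of `G_ℚ` (trivial on an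
open subgroup) -/
def IsQuotientUpToArtin (V W : GQ →* GL (Fin n) E) : Prop :=
  ∃ (d : ℕ) (π : GQ →* GL (Fin d) E) (A : Matrix (Fin n) (Fin n × Fin d) E),
    (∃ U : Subgroup GQ, IsOpen (U : Set GQ) ∧ ∀ σ ∈ U, π σ = 1) ∧
    Function.Surjective A.mulVec ∧ ∀ σ, (V σ : Matrix (Fin n) (Fin n) E) * A =
      A * ((W σ : Matrix (Fin n) (Fin n) E) ⊗ₖ (π σ : Matrix (Fin d) (Fin d) E))

/-- `V` is isomorphic to the twist of `W` by a character `ε` of finite order -/
def IsTwist (V W : GQ →* GL (Fin n) E) : Prop :=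
  ∃ (Q : GL (Fin n) E) (ε : GQ →* (E : Type)ˣ),
    (∃ U : Subgroup GQ, IsOpen (U : Set GQ) ∧ ∀ σ ∈ U, ε σ = 1) ∧
    ∀ σ, (V σ : Matrix (Fin n) (Fin n) E) = (ε σ : E) • ((Q : Matrix (Fin n) (Fin n) E) *
      (W σ : Matrix (Fin n) (Fin n) E) * ((Q⁻¹ : GL (Fin n) E) : Matrix (Fin n) (Fin n) E))

/-- the image of an open subgroup is commutative -/
def PotentiallyAbelian (V : GQ →* GL (Fin n) E) : Prop :=
  ∃ U : Subgroup GQ, IsOpen (U : Set GQ) ∧ ∀ σ ∈ U, ∀ τ ∈ U, V σ * V τ = V τ * V σ

theorem top_open : IsOpen ((⊤ : Subgroup GQ) : Set GQ) := isOpen_univ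

/-- an irreducible two-dimensional representation is potentially abelian or spans all matrices on every open
subgroup -/
theorem span_or_abelian (V : GQ →* GL (Fin 2) E) (hV : Irreducible V) :
    PotentiallyAbelian V ∨ ∀ U : Subgroup GQ, IsOpen (U : Set GQ) →
      Submodule.span E {X | ∃ σ : (⊤ : Subgroup GQ), (σ : GQ) ∈ U ∧
        X = (V.comp (⊤ : Subgroup GQ).subtype σ : Matrix (Fin 2) (Fin 2) E)} = ⊤ := by
  by_cases h : ∃ U : Subgroup GQ, IsOpen (U : Set GQ) ∧ U.Normal ∧
      ¬ Submodule.span E {X | ∃ g : U, X = (V.comp U.subtype g : Matrix (Fin 2) (Fin 2) E)} = ⊤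
  · left
    obtain ⟨U, hU, hUn, h1⟩ := h
    have h2 := Pool.Agent.V11302.FM.dichotomy (V.comp U.subtype)
      (Pool.Agent.Y802.clifford V (fun X hX => hV X hX) U)
    rcases h2 with h2 | h2
    · exact absurd h2 h1
    · exact ⟨U, hU, fun σ hσ τ hτ => h2 ⟨σ, hσ⟩ ⟨τ, hτ⟩⟩
  · right
    push Not at h
    intro U hU
    have h1 := h U.normalCore (Pool.Agent.Y802.TS.core_open hU) (Subgroup.normalCore_normal _)
    rw [eq_top_iff, ← h1]
    apply Submodule.span_mono
    rintro _ ⟨g, rfl⟩
    exact ⟨⟨g.1, trivial⟩, Subgroup.normalCore_le _ g.2, rfl⟩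

end rep

/-- **Main result.** -/
theorem result (f : ℕ → ℕ) :
    ∃ (T : ℕ → ℕ) (k L : IntermediateField ℚ (AlgebraicClosure ℚ)),
      (∀ i, (T i).Prime ∧ T i < T (i + 1) ∧ f (T i) < T (i + 1)) ∧
      UnramifiedTower k L ∧ (∀ i, SplitsCompletely (T i) L) ∧
      ∀ (p : ℕ) [Fact p.Prime] (E : IntermediateField ℚ_[p] (PadicAlgCl p)),
        FiniteDimensional ℚ_[p] E → ∀ (V : GQ →* GL (Fin 2) E), AlmostUnramified V → Irreducible V →
          ∀ (r : ℕ) (W : Fin r → GQ →* GL (Fin 2) E),
          (∀ c, AlmostUnramified (W c) ∧ Semisimple (W c)) → AgreeAtAlmostAll T V W →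
          ∃ c, IsQuotientUpToArtin V (W c) ∧ (IsTwist V (W c) ∨ PotentiallyAbelian V) := by
  obtain ⟨T, k, L, hT1, hT2, htow, hrep⟩ := Pool.Agent.V11302.FM.mainB f
  refine ⟨T, k, L, fun i => ⟨hT1 i, ?_, ?_⟩, ⟨⟨htow.rank, htow.sqrt⟩, htow.le, htow.inf, htow.galois,
    htow.unr, htow.real, htow.two⟩, ?_, ?_⟩
  · have := hT2 i
    omega
  · have := hT2 i
    have := (hT1 i).pos
    omega
  · intro i P hP hTP σ hσ
    rcases hσ with hσ | hσ
    · exact htow.unrT i P hP hTP σ hσ
    · exact htow.split i P hP hTP σ hσ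
  · intro p hp E hE V hV hirr r W hW hag
    obtain ⟨hVc, S, hS⟩ := hV
    obtain ⟨i0, hi0⟩ := hag
    obtain ⟨c, d, π, A, ⟨U, hU, h1⟩, h2, h3, h4⟩ := hrep ⊤ top_open p E hE 2
      (V.comp (⊤ : Subgroup GQ).subtype) (hVc.comp continuous_subtype_val)
      ⟨S, fun q hq hqS P hP hqP τ _ hτP => hS q hq hqS P hP hqP τ hτP⟩
      (fun X hX => hirr X fun g w hw => hX ⟨g, trivial⟩ w hw) (by norm_num) r
      (fun c => (W c).comp (⊤ : Subgroup GQ).subtype)
      (fun c => (hW c).1.1.comp continuous_subtype_val)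
      (fun c => by
        obtain ⟨S', hS'⟩ := (hW c).1.2
        exact ⟨S', fun q hq hqS P hP hqP t _ htP => hS' q hq hqS P hP hqP t htP⟩)
      (fun c X hX => by
        obtain ⟨X', hX', hc⟩ := (hW c).2 X fun g w hw => hX ⟨g, trivial⟩ w hw
        exact ⟨X', fun g w hw => hX' g.1 w hw, hc⟩)
      ⟨i0, fun i hi P hP hTP σ _ hσP => hi0 i hi P hP hTP σ hσP⟩
    let e : GQ →* (⊤ : Subgroup GQ) := Subgroup.topEquiv.symm.toMonoidHom
    have he : ∀ σ, ((e σ : (⊤ : Subgroup GQ)) : GQ) = σ := fun σ => rfl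
    refine ⟨c, ⟨d, π.comp e, A, ⟨U, hU, fun σ hσ => h1 (e σ) hσ⟩, h2, fun σ => h3 (e σ)⟩, ?_⟩
    rcases span_or_abelian V hirr with h5 | h5
    · exact Or.inr h5
    · left
      obtain ⟨Q, ε, ⟨U', hU', h6⟩, h7⟩ := h4 h5
      exact ⟨Q, ε.comp e, ⟨U', hU', fun σ hσ => h6 (e σ) hσ⟩, fun σ => h7 (e σ)⟩

end Pool.Agent.Results.MP_b583a4_nt.ModularAtSparsePrimes
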