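import Pool.Agent.V11248.FM.Rat
import Pool.Agent.V11248.FM.Ads

/-!
# Representations of `G_ℚ` which are scalar modulo `p ^ m`

Let `p` be an odd prime, `m ≥ 2`, and let `S` be a finite set of primes `l` which are congruent to
`1` modulo `p ^ m`, but not modulo `p ^ (m + 1)`, such that every subset `J` of `S` with at least
three elements contains an element `l` which is a `p`-th power modulo all the other elements of `J`
with at most one exception (this is no condition if `S` has at most two elements).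

Let `A` be a Noetherian local ring in which `p` is a nonunit and not a zero divisor, for example the
ring of integers of a finite extension of `ℚ_p`, and let `ρ : Gal(ℚbar/ℚ) → GL_n(A)` be continuous,
such that `ρ g` is a scalar matrix modulo `p ^ m` for all `g`, and such that the inertia groups at the
primes `l ≡ 1` modulo `p ^ m` which are not in `S` act by scalars. There is no condition at `p` and
at the other primes. Then `ρ` is abelian, and `ρ g` is a scalar matrix for all `g` which fix the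
roots of unity of `p`-power order.

So, whatever the ramification and the Hodge-Tate weights at `p` are, no such representation of
dimension `2` (or more) is absolutely irreducible.
-/

set_option autoImplicit false

open NumberField IsDedekindDomain IsLocalRing

namespace Pool.Agent.Results.MP_b583a4_nt.ScalarReduction

/-- the absolute Galois group of `ℚ`, with the Krull topology -/
abbrev AbsGal : Type := Gal(AlgebraicClosure ℚ/ℚ)

/-- the ring of all algebraic integers -/
abbrev ZBar : Type := 𝓞 (AlgebraicClosure ℚ)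

/-- `τ` lies in the inertia group at the maximal ideal `P` of the ring of all algebraic integers -/
def Inertia (P : Ideal ZBar) (τ : AbsGal) : Prop := ∀ x : ZBar, τ • x - x ∈ P

/-- `l` is a `p`-th power modulo `i` -/
def PowerResidue (p l i : ℕ) : Prop := ∃ x : ZMod i, x ^ p = (l : ZMod i)

/-- `g` fixes all roots of unity of `p`-power order -/
def FixesRootsOfUnity (p : ℕ) (g : AbsGal) : Prop :=
  ∀ (k : ℕ) (z : AlgebraicClosure ℚ), z ^ p ^ k = 1 → g z = z

section
variable {A : Type} [CommRing A] {n : ℕ}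

/-- `M` is a scalar matrix -/
def Scalar (M : GL (Fin n) A) : Prop := ∃ a : A, (M : Matrix (Fin n) (Fin n) A) = a • 1

/-- `M` is congruent to a scalar matrix modulo `d` -/
def ScalarMod (d : A) (M : GL (Fin n) A) : Prop :=
  ∃ a : A, ∀ i j, d ∣ ((M : Matrix (Fin n) (Fin n) A) - a • 1) i j

/-- The inertia groups at the maximal ideals above the prime number `l` act by scalar matrices; in
other words, the projective representation attached to `ρ` is unramified at `l`. -/
def ScalarInertiaAt (ρ : AbsGal →* GL (Fin n) A) (l : ℕ) : Prop :=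
  ∀ P : Ideal ZBar, P.IsMaximal → (l : ZBar) ∈ P → ∀ τ : AbsGal, Inertia P τ → Scalar (ρ τ)

end

/-- The theorem. -/
theorem result (p : ℕ) [Fact p.Prime] (hp : p ≠ 2) (m : ℕ) (hm : 2 ≤ m) (S : Finset ℕ)
    (hS : ∀ l ∈ S, l.Prime ∧ p ^ m ∣ l - 1 ∧ ¬ p ^ (m + 1) ∣ l - 1)
    (hJ : ∀ J ⊆ S, 3 ≤ J.card →
      ∃ l ∈ J, ∃ j ∈ J, ∀ i ∈ J, i ≠ l → i ≠ j → PowerResidue p l i)
    (A : Type) [CommRing A] [IsLocalRing A] [IsNoetherianRing A] [TopologicalSpace A]
    (hA : IsAdic (maximalIdeal A)) (hpA : (p : A) ∈ maximalIdeal A)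
    (hreg : ∀ a : A, (p : A) * a = 0 → a = 0) (n : ℕ)
    (ρ : AbsGal →* GL (Fin n) A) (hρ : Continuous ρ)
    (hρ1 : ∀ g, ScalarMod ((p : A) ^ m) (ρ g))
    (hur : ∀ l : ℕ, l.Prime → l ∉ S → p ^ m ∣ l - 1 → ScalarInertiaAt ρ l) :
    (∀ g g', ρ g * ρ g' = ρ g' * ρ g) ∧ ∀ g, FixesRootsOfUnity p g → Scalar (ρ g) := by
  classical
  have hp2 : 2 < p := by
    have := (Fact.out : p.Prime).two_le
    omega
  have hpm : 2 < p ^ m := lt_of_lt_of_le hp2 (by
    calc p = p ^ 1 := (pow_one p).symm
      _ ≤ p ^ m := Nat.pow_le_pow_right (by omega) (by omega))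
  set E : Set (HeightOneSpectrum (𝓞 ℚ)) := {V11248.FM.vp p} with hE
  have hEp : ∀ v ∈ E, (p : 𝓞 ℚ) ∈ v.asIdeal := by
    intro v hv
    rw [hE, Set.mem_singleton_iff] at hv
    rw [hv]
    exact V11248.FM.mem_vp Fact.out
  have hEp' : ∀ v : HeightOneSpectrum (𝓞 ℚ), (p : 𝓞 ℚ) ∈ v.asIdeal → v ∈ E := by
    intro v hv
    rw [hE, Set.mem_singleton_iff]
    refine HeightOneSpectrum.ext ?_
    rw [V11248.FM.vp_ideal Fact.out]
    refine ((W571.FM.pl_max (Fact.out : p.Prime)).eq_of_le v.isPrime.ne_top ?_).symm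
    unfold W571.FM.pl
    rw [Ideal.span_singleton_le_iff_mem]
    exact hv
  set S' : Finset (HeightOneSpectrum (𝓞 ℚ)) := S.image V11248.FM.vp with hS'
  have hone := V11248.FM.one_ext (p := p) hp E hEp
  have hcts : ∀ N : ℕ, ∀ᶠ g in nhds (1 : AbsGal), V11248.FM.MJ (maximalIdeal A ^ N)
      (((V11248.FM.ad.comp ρ) g : Matrix (Fin (n * n)) (Fin (n * n)) A) - 1) := by
    intro N
    filter_upwards [V11248.FM.cts_memN hA hρ N] with g hg
    refine V11248.FM.ad_sub_one (a := 1) ?_
    rw [one_smul]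
    exact hg
  have h0 : ∀ g i j, (p : A) ^ m ∣
      (((V11248.FM.ad.comp ρ) g : Matrix (Fin (n * n)) (Fin (n * n)) A) - 1) i j := by
    intro g i j
    obtain ⟨a, ha⟩ := hρ1 g
    exact Ideal.mem_span_singleton.1 (V11248.FM.ad_sub_one (I := Ideal.span {(p : A) ^ m})
      (fun i j => Ideal.mem_span_singleton.2 (ha i j)) i j)
  obtain ⟨h1, h2, -, -, h5⟩ := V11248.FM.main (K := ℚ) (ρ := V11248.FM.ad.comp ρ) hpA hreg hpm S'
    (fun v hv => by
      obtain ⟨l, hl, rfl⟩ := Finset.mem_image.1 hv
      rw [V11248.FM.nm_vp (hS l hl).1]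
      exact (hS l hl).2) E
    (fun J' hJ' hne => Or.inl (V11248.FM.row_rat hp hm S (fun l hl => ⟨(hS l hl).1, (hS l hl).2.1⟩)
      hJ E hEp J' (fun v hv => by
        obtain ⟨l, hl, h⟩ := Finset.mem_image.1 (hJ' hv)
        exact ⟨l, hl, h.symm⟩) hne))
    hcts (Or.inl h0) (by
      intro P v hP hPv hvE h τ hτ
      obtain ⟨l, hl, hlP, rfl⟩ := V11248.FM.exists_vp hP hPv
      rcases h with h | ⟨hvS, h⟩
      · exact absurd (hEp' _ h) hvE
      · rw [V11248.FM.nm_vp hl] at h
        obtain ⟨a, ha⟩ := hur l hl (fun h => hvS (Finset.mem_image_of_mem _ h)) h P hP hlP τ hτ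
        exact V11248.FM.ad_of_scalar ha)
  refine ⟨V11248.FM.comm_of_ad hpA E hone hcts h5 h1 h2, fun g hg => ?_⟩
  exact V11248.FM.ad_eq_one (V11248.FM.cyc_of hpA E hEp' hone hcts h5 h1 h2 g hg)

end Pool.Agent.Results.MP_b583a4_nt.ScalarReduction
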